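import Pool.Agent.Y933.KE.SmearRes
import Pool.Agent.W301.TD.ExpSum

/-!
# Random real numbers as random points: a smoothed law
-/

set_option autoImplicit false

namespace Pool.Agent.K4H18.DG

open Finset Real MeasureTheory Filter Topology ProbabilityTheory
open scoped ENNReal
open Pool.Agent.Y933.KD Pool.Agent.Y933.KE

variable {ι : Type*}

/-- the law of `(x + θ) / b ^ J`, where `x` is a random element of a finite family of real numbers and `θ` a random
real number in `[0, 1)` -/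
noncomputable def smr (s : Finset ι) (x : ι → ℝ) (b J : ℕ) : Measure ℝ :=
  (s.card : ℝ≥0∞)⁻¹ • ∑ m ∈ s, Leb.map (fun θ : ℝ => (x m + θ) / (b : ℝ) ^ J)

lemma smr_prob {s : Finset ι} (hs : s.Nonempty) (x : ι → ℝ) (b J : ℕ) : IsProbabilityMeasure (smr s x b J) := by
  refine ⟨?_⟩
  unfold smr
  rw [Measure.smul_apply, Measure.finsetSum_apply]
  have h1 : ∀ m ∈ s, (Leb.map (fun θ : ℝ => (x m + θ) / (b : ℝ) ^ J)) Set.univ = 1 := by
    intro m _
    have := Measure.isProbabilityMeasure_map (μ := Leb) (meas_map (x m) ((b : ℝ) ^ J)).aemeasurable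
    exact measure_univ
  rw [sum_congr rfl h1]
  simp only [sum_const, smul_eq_mul, nsmul_eq_mul, mul_one]
  refine ENNReal.inv_mul_cancel ?_ (ENNReal.natCast_ne_top _)
  exact_mod_cast (Finset.card_pos.2 hs).ne'

lemma hat_smr (s : Finset ι) (x : ι → ℝ) (b J : ℕ) (l : ℤ) :
    hat (smr s x b J) l = (1 / s.card) * ((∑ m ∈ s, e ((l : ℝ) / (b : ℝ) ^ J * x m)) *
      ∫ θ, e ((l : ℝ) / (b : ℝ) ^ J * θ) ∂Leb) := by
  unfold hat smr
  rw [integral_smul_measure, integral_finsetSum_measure]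
  · have h1 : ∀ m ∈ s, ∫ y, e (l * y) ∂(Leb.map (fun θ : ℝ => (x m + θ) / (b : ℝ) ^ J)) =
        e ((l : ℝ) / (b : ℝ) ^ J * x m) * ∫ θ, e ((l : ℝ) / (b : ℝ) ^ J * θ) ∂Leb := by
      intro m _
      have hc : Continuous (fun x : ℝ => e ((l : ℝ) * x)) := continuous_e.comp (by fun_prop)
      rw [integral_map (meas_map _ _).aemeasurable hc.aestronglyMeasurable, ← integral_const_mul]
      congr 1
      funext θ
      rw [← e_add]
      congr 1
      ring
    rw [sum_congr rfl h1, ← sum_mul]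
    simp only [ENNReal.toReal_inv, ENNReal.toReal_natCast]
    rw [Complex.real_smul]
    push_cast
    rw [one_div]
  · intro m _
    have := Measure.isProbabilityMeasure_map (μ := Leb) (meas_map (x m) ((b : ℝ) ^ J)).aemeasurable
    exact integrable_e _ _

lemma hat_smr_le {s : Finset ι} (x : ι → ℝ) (b J : ℕ) (l : ℤ) :
    ‖hat (smr s x b J) l‖ ≤ 1 / s.card * ‖∑ m ∈ s, e ((l : ℝ) / (b : ℝ) ^ J * x m)‖ := by
  rw [hat_smr, norm_mul, norm_mul, norm_div, norm_one, Complex.norm_natCast]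
  have h1 := int_e_le ((l : ℝ) / (b : ℝ) ^ J)
  have h2 : ‖∑ m ∈ s, e ((l : ℝ) / (b : ℝ) ^ J * x m)‖ * ‖∫ θ, e ((l : ℝ) / (b : ℝ) ^ J * θ) ∂Leb‖ ≤
      ‖∑ m ∈ s, e ((l : ℝ) / (b : ℝ) ^ J * x m)‖ * 1 := by gcongr
  rw [mul_one] at h2
  gcongr

lemma hat_smr_zero {s : Finset ι} (x : ι → ℝ) {b J : ℕ} (hb : 1 ≤ b) {l : ℤ} (hl : l ≠ 0)
    (hd : (b : ℤ) ^ J ∣ l) : hat (smr s x b J) l = 0 := by
  obtain ⟨t, rfl⟩ := hd
  have hb' : (b : ℝ) ^ J ≠ 0 := by positivity
  have ht : t ≠ 0 := by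
    rintro rfl
    exact hl (mul_zero _)
  have h1 : (((b : ℤ) ^ J * t : ℤ) : ℝ) / (b : ℝ) ^ J = t := by
    push_cast
    field_simp
  rw [hat_smr, h1]
  have h2 : ∫ θ, e ((t : ℝ) * θ) ∂Leb = 0 := hat_Leb t ht
  rw [h2, mul_zero, mul_zero]

/-- events -/
lemma real_smr_ge {s : Finset ι} (x : ι → ℝ) (b J : ℕ) {E : Set ℝ} (hE : MeasurableSet E)
    (p : ι → Prop) [DecidablePred p] (hp : ∀ m ∈ s, p m → ∀ θ ∈ Set.Ico (0 : ℝ) 1, (x m + θ) / (b : ℝ) ^ J ∈ E) :
    ((s.filter p).card : ℝ) / s.card ≤ (smr s x b J).real E := by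
  rcases s.eq_empty_or_nonempty with h0 | hs
  · subst h0
    simp
  have := smr_prob hs x b J
  unfold Measure.real
  rw [← ENNReal.toReal_natCast (s.filter p).card, ← ENNReal.toReal_natCast s.card, ← ENNReal.toReal_div]
  apply ENNReal.toReal_mono (measure_ne_top _ _)
  unfold smr
  rw [Measure.smul_apply, Measure.finsetSum_apply, smul_eq_mul, ENNReal.div_eq_inv_mul]
  apply mul_le_mul_right
  have h1 : ((s.filter p).card : ℝ≥0∞) = ∑ m ∈ s, (if p m then 1 else 0) := by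
    rw [card_filter]
    push_cast
    rfl
  rw [h1]
  apply sum_le_sum
  intro m hm
  split_ifs with h
  · rw [Measure.map_apply (meas_map _ _) hE]
    unfold Leb
    rw [Measure.restrict_apply ((meas_map _ _) hE)]
    have h2 : (fun θ : ℝ => (x m + θ) / (b : ℝ) ^ J) ⁻¹' E ∩ Set.Ico 0 1 = Set.Ico (0 : ℝ) 1 := by
      ext θ
      constructor
      · exact fun h => h.2
      · exact fun hθ => ⟨hp m hm h θ hθ, hθ⟩
    rw [h2]
    simp
  · simp

end Pool.Agent.K4H18.DG
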