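import Pool.Agent.K4H18.DG.A1

/-!
# Exponential sums over powers modulo all prime powers
-/

set_option autoImplicit false

namespace Pool.Agent.K4H18.DG

open Finset Real Filter Topology
open Pool.Agent.W301.TD.AA
open Pool.Agent.Helper602.MK (ee)
open Pool.Agent.Helper602.MK.N_J5b (norm_ee ee_add ee_int)

/-- geometric sums over the roots of unity -/
lemma geom_root {z : ℂ} {q : ℕ} (hq : 0 < q) (hz1 : ‖z‖ = 1) (hzq : z ^ q = 1) (hz : z ≠ 1) (T : ℕ) :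
    ‖∑ t ∈ range T, z ^ t‖ ≤ q := by
  have h0 : ∀ T : ℕ, ∑ t ∈ range T, z ^ t = ∑ t ∈ range (T % q), z ^ t := by
    intro T
    have hz' : z - 1 ≠ 0 := sub_ne_zero.2 hz
    rw [geom_sum_eq hz, geom_sum_eq hz]
    congr 2
    conv_lhs => rw [← Nat.div_add_mod T q]
    rw [pow_add, pow_mul, hzq, one_pow, one_mul]
  rw [h0]
  refine (norm_sum_le _ _).trans ?_
  calc ∑ t ∈ range (T % q), ‖z ^ t‖ = ∑ _t ∈ range (T % q), (1 : ℝ) := by
        apply sum_congr rfl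
        intro t _
        rw [norm_pow, hz1, one_pow]
    _ = ((T % q : ℕ) : ℝ) := by simp
    _ ≤ q := by exact_mod_cast (Nat.mod_lt T hq).le

lemma one_add_pow_two (X : ℕ) (j : ℕ) : ∃ c : ℕ, (1 + X) ^ j = 1 + j * X + X ^ 2 * c := by
  obtain ⟨c, hc⟩ := one_add_pow_trunc X j 1
  refine ⟨c, ?_⟩
  rw [hc]
  rw [sum_range_succ, sum_range_one, Nat.choose_zero_right, Nat.choose_one_right]
  ring

/-- low places: exact periodicity -/
lemma low_sum {q : ℕ} (hq : q.Prime) {p G w ι : ℕ} {A : ℤ} (hp : ¬ q ∣ p) (hw : ¬ q ∣ w) (hι : 2 ≤ ι)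
    (hG1 : 1 ≤ G) (hG : p ^ G = 1 + q ^ (ι - 1) * w) (hA : ¬ (q : ℤ) ∣ A) (M : ℕ) :
    ‖∑ n ∈ range M, ee ((A : ℝ) * (p : ℝ) ^ n / (q : ℝ) ^ ι)‖ ≤ G * q + G := by
  have hq0 : (0 : ℝ) < q := by exact_mod_cast hq.pos
  refine sum_ap (fun n => ee ((A : ℝ) * (p : ℝ) ^ n / (q : ℝ) ^ ι)) (fun n => (norm_ee _).le) M G hG1
    (B := q) (fun n₀ _ => ?_)
  obtain ⟨B, hB⟩ : ∃ B : ℤ, B = A * (p : ℤ) ^ n₀ * w := ⟨_, rfl⟩
  have hqp : Prime (q : ℤ) := Nat.prime_iff_prime_int.1 hq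
  have hqB : ¬ (q : ℤ) ∣ B := by
    rw [hB]
    intro h
    rcases hqp.dvd_or_dvd h with h | h
    · rcases hqp.dvd_or_dvd h with h | h
      · exact hA h
      · exact hp (by exact_mod_cast hqp.dvd_of_dvd_pow h)
    · exact hw (by exact_mod_cast h)
  have hph : ∀ t : ℕ, ee ((A : ℝ) * (p : ℝ) ^ (n₀ + G * t) / (q : ℝ) ^ ι) =
      ee ((A : ℝ) * (p : ℝ) ^ n₀ / (q : ℝ) ^ ι) * (ee ((B : ℝ) / q)) ^ t := by
    intro t
    obtain ⟨c, hc⟩ := one_add_pow_two (q ^ (ι - 1) * w) t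
    have h1 : (p : ℝ) ^ (G * t) = 1 + t * ((q : ℝ) ^ (ι - 1) * w) + ((q : ℝ) ^ (ι - 1) * w) ^ 2 * c := by
      rw [pow_mul]
      have : (p : ℝ) ^ G = 1 + (q : ℝ) ^ (ι - 1) * w := by exact_mod_cast hG
      rw [this]
      exact_mod_cast hc
    have hpow : ∀ x : ℝ, ∀ t : ℕ, (ee x) ^ t = ee (t * x) := by
      intro x t
      induction t with
      | zero =>
        rw [pow_zero]
        have := ee_int 0
        push_cast at this ⊢
        rw [zero_mul, this]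
      | succ t ih =>
        rw [pow_succ, ih, ← ee_add]
        congr 1
        push_cast
        ring
    rw [hpow, ← ee_add]
    have h2 : (A : ℝ) * (p : ℝ) ^ (n₀ + G * t) / (q : ℝ) ^ ι =
        ((A : ℝ) * (p : ℝ) ^ n₀ / (q : ℝ) ^ ι + t * ((B : ℝ) / q)) +
          ((A * (p : ℤ) ^ n₀ * (w : ℤ) ^ 2 * (q : ℤ) ^ (ι - 2) * c : ℤ) : ℝ) := by
      rw [pow_add, h1, hB]
      obtain ⟨k, rfl⟩ : ∃ k, ι = k + 2 := ⟨ι - 2, by omega⟩
      have e1 : k + 2 - 1 = k + 1 := by omega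
      have e2 : k + 2 - 2 = k := by omega
      rw [e1, e2]
      push_cast
      field_simp
      ring
    rw [h2]
    rw [ee_add, ee_int, mul_one]
  rw [sum_congr rfl (fun t _ => hph t), ← mul_sum, norm_mul, norm_ee, one_mul]
  have hpowz : (ee ((B : ℝ) / q)) ^ q = 1 := by
    have hpow : ∀ x : ℝ, ∀ t : ℕ, (ee x) ^ t = ee (t * x) := by
      intro x t
      induction t with
      | zero =>
        rw [pow_zero]
        have := ee_int 0
        push_cast at this ⊢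
        rw [zero_mul, this]
      | succ t ih =>
        rw [pow_succ, ih, ← ee_add]
        congr 1
        push_cast
        ring
    rw [hpow]
    have : (q : ℝ) * ((B : ℝ) / q) = B := by field_simp
    rw [this, ee_int]
  refine geom_root hq.pos (norm_ee _) hpowz ?_ _
  intro h
  have h3 : ee ((B : ℝ) / q) = Complex.exp (2 * π * ((B : ℝ) / q : ℝ) * Complex.I) := rfl
  rw [h3, Complex.exp_eq_one_iff] at h
  obtain ⟨n, hn⟩ := h
  apply hqB
  refine ⟨n, ?_⟩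
  have h4 : ((B : ℝ) / q : ℝ) = n := by
    have h5 : (2 * (π : ℂ) * Complex.I) ≠ 0 := by
      simp [Real.pi_ne_zero]
    have h6 : (2 * (π : ℂ) * Complex.I) * (((B : ℝ) / q : ℝ) : ℂ) = (2 * (π : ℂ) * Complex.I) * (n : ℂ) := by
      rw [mul_comm (2 * (π : ℂ) * Complex.I) (n : ℂ), ← hn]
      ring
    have h7 := mul_left_cancel₀ h5 h6
    exact_mod_cast h7
  rw [div_eq_iff hq0.ne'] at h4
  have : (B : ℝ) = ((q : ℤ) * n : ℤ) := by
    rw [h4]; push_cast; ring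
  exact_mod_cast this

/-- **all places**: there is `s` such that for all `C` the sums over `n < M` of `e(A p^n / q^ι)`, `s < ι ≤ C log M`,
save a power of `M` -/
theorem expsum_all {q : ℕ} (hq : q.Prime) {p : ℕ} (hp2 : 2 ≤ p) (hp : ¬ q ∣ p) : ∃ s : ℕ, ∀ C : ℝ,
    ∃ η : ℝ, 0 < η ∧ ∃ M0 : ℕ, ∀ M : ℕ, M0 ≤ M → ∀ ι : ℕ, s < ι → (ι : ℝ) ≤ C * log M → ∀ A : ℤ, ¬ (q : ℤ) ∣ A →
      ‖∑ n ∈ range M, ee ((A : ℝ) * (p : ℝ) ^ n / (q : ℝ) ^ ι)‖ ≤ (M : ℝ) ^ (-η) * M := by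
  obtain ⟨s, hs⟩ := exists_tower hq hp2 hp
  obtain ⟨g, hg⟩ : ∃ g, g = (q ^ 2).totient := ⟨_, rfl⟩
  have hg1 : 1 ≤ g := by rw [hg]; exact Nat.totient_pos.2 (pow_pos hq.pos 2)
  rw [← hg] at hs
  have hqR : (2 : ℝ) ≤ q := by exact_mod_cast hq.two_le
  have hq0 : (0 : ℝ) < q := by linarith
  have hlq : 0 < log (q : ℝ) := Real.log_pos (by linarith)
  refine ⟨s + 1, fun C => ?_⟩
  obtain ⟨C', hC'⟩ : ∃ C', C' = max (C * log q) 0 := ⟨_, rfl⟩
  have hC'0 : 0 ≤ C' := by rw [hC']; exact le_max_right _ _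
  have hC'1 : C * log q ≤ C' := by rw [hC']; exact le_max_left _ _
  obtain ⟨η, hη, x0, h⟩ := expsum hq hp hg1 hs (1 / 4) C' (by norm_num) (by norm_num) hC'0
  -- large `M`
  have hev : ∀ᶠ M : ℕ in atTop, x0 * log q ≤ log M ∧ (2 : ℝ) * g * q ≤ (M : ℝ) ^ ((1 : ℝ) / 4) := by
    have h1 : Tendsto (fun M : ℕ => log (M : ℝ)) atTop atTop := Real.tendsto_log_atTop.comp tendsto_natCast_atTop_atTop
    have h2 : Tendsto (fun M : ℕ => (M : ℝ) ^ ((1 : ℝ) / 4)) atTop atTop :=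
      (tendsto_rpow_atTop (by norm_num)).comp tendsto_natCast_atTop_atTop
    exact (h1.eventually_ge_atTop _).and (h2.eventually_ge_atTop _)
  obtain ⟨M0, hM0⟩ := eventually_atTop.1 hev
  refine ⟨min η (1 / 2), lt_min hη (by norm_num), max M0 1, fun M hM ι hι1 hι2 A hA => ?_⟩
  obtain ⟨h1, h2⟩ := hM0 M ((le_max_left _ _).trans hM)
  have hM1 : 1 ≤ M := (le_max_right _ _).trans hM
  have hMR : (1 : ℝ) ≤ M := by exact_mod_cast hM1
  have hMp : (0 : ℝ) < M := by linarith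
  obtain ⟨x, hx⟩ : ∃ x, x = log M / log q := ⟨_, rfl⟩
  have hxlog : x * log q = log M := by rw [hx]; field_simp
  have hMx : (M : ℝ) = (q : ℝ) ^ x := by
    rw [Real.rpow_def_of_pos hq0, mul_comm, hxlog, Real.exp_log hMp]
  have hlogM : 0 ≤ log (M : ℝ) := Real.log_nonneg hMR
  have hx0' : 0 ≤ x := by rw [hx]; positivity
  rcases le_or_gt (1 / 4 * x) (ι : ℝ) with hcase | hcase
  · have h3 := h x (by
      rw [hx, le_div_iff₀ hlq]; exact h1) M hMx ι hcase (by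
        refine hι2.trans ?_
        rw [← hxlog]
        calc C * (x * log q) = (C * log q) * x := by ring
          _ ≤ C' * x := mul_le_mul_of_nonneg_right hC'1 hx0') A hA
    refine h3.trans ?_
    apply mul_le_mul_of_nonneg_right _ hMp.le
    have h4 : (q : ℝ) ^ (-(η * x)) = (M : ℝ) ^ (-η) := by
      rw [hMx, ← Real.rpow_mul hq0.le]
      congr 1
      ring
    rw [h4]
    apply Real.rpow_le_rpow_of_exponent_le hMR
    have := min_le_left η (1 / 2)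
    linarith
  · -- low places
    obtain ⟨w, hw1, hw2⟩ := hs (ι - 1 - s)
    have e1 : s + (ι - 1 - s) = ι - 1 := by omega
    rw [e1] at hw2
    have h3 := low_sum hq hp hw1 (by omega) (Nat.one_le_iff_ne_zero.2 (Nat.mul_ne_zero (by omega) (pow_pos hq.pos _).ne'))
      hw2 hA M
    refine h3.trans ?_
    have hG : ((g * q ^ (ι - 1 - s) : ℕ) : ℝ) ≤ g * (M : ℝ) ^ ((1 : ℝ) / 4) := by
      push_cast
      apply mul_le_mul_of_nonneg_left _ (Nat.cast_nonneg _)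
      calc (q : ℝ) ^ (ι - 1 - s) ≤ (q : ℝ) ^ ι := pow_le_pow_right₀ (by linarith) (by omega)
        _ = (q : ℝ) ^ (ι : ℝ) := (Real.rpow_natCast _ _).symm
        _ ≤ (q : ℝ) ^ (1 / 4 * x) := Real.rpow_le_rpow_of_exponent_le (by linarith) hcase.le
        _ = (M : ℝ) ^ ((1 : ℝ) / 4) := by
          rw [hMx, ← Real.rpow_mul hq0.le]
          congr 1
          ring
    have hM14 : 0 ≤ (M : ℝ) ^ ((1 : ℝ) / 4) := by positivity
    have hg0 : (0 : ℝ) ≤ g := Nat.cast_nonneg _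
    calc ((g * q ^ (ι - 1 - s) : ℕ) : ℝ) * q + ((g * q ^ (ι - 1 - s) : ℕ) : ℝ)
        ≤ (g * (M : ℝ) ^ ((1 : ℝ) / 4)) * q + (g * (M : ℝ) ^ ((1 : ℝ) / 4)) * q := by
          apply add_le_add
          · exact mul_le_mul_of_nonneg_right hG hq0.le
          · refine hG.trans ?_
            exact le_mul_of_one_le_right (by positivity) (by linarith)
      _ = (2 * g * q) * (M : ℝ) ^ ((1 : ℝ) / 4) := by ring
      _ ≤ (M : ℝ) ^ ((1 : ℝ) / 4) * (M : ℝ) ^ ((1 : ℝ) / 4) := mul_le_mul_of_nonneg_right h2 hM14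
      _ = (M : ℝ) ^ ((1 : ℝ) / 2) := by rw [← Real.rpow_add hMp]; norm_num
      _ ≤ (M : ℝ) ^ (-(min η (1 / 2)) + 1) := by
          apply Real.rpow_le_rpow_of_exponent_le hMR
          have := min_le_right η (1 / 2)
          linarith
      _ = (M : ℝ) ^ (-(min η (1 / 2))) * M := by rw [Real.rpow_add hMp, Real.rpow_one]

end Pool.Agent.K4H18.DG
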