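import Pool.Agent.K4H18.DG.A2

/-!
# The digits of powers with random exponents: tests
-/

set_option autoImplicit false

namespace Pool.Agent.K4H18.DG

open Finset Real MeasureTheory Filter Topology ProbabilityTheory
open Pool.Agent.Y933.KD Pool.Agent.Y933.KE
open Pool.Agent.Helper602.MK (ee)

lemma e_eq_ee (x : ℝ) : e x = ee x := by
  unfold e ee
  congr 1
  push_cast
  ring

/-- the measures: `(l p ^ n / q ^ s + θ) / q ^ J` with random `n < M` -/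
def SL (p q s : ℕ) (A' : ℝ) (M : ℕ) : Set (Measure ℝ) :=
  {P | ∃ l J : ℕ, ¬ q ∣ l ∧ (J : ℝ) ≤ A' * log M ∧
    P = smr (range M) (fun n => (l : ℝ) * (p : ℝ) ^ n / (q : ℝ) ^ s) q J}

lemma SL_prob (p q s : ℕ) (A' : ℝ) (M : ℕ) (hM : 1 ≤ M) (P : Measure ℝ) (hP : P ∈ SL p q s A' M) :
    IsProbabilityMeasure P := by
  obtain ⟨l, J, _, _, rfl⟩ := hP
  refine smr_prob ?_ _ _ _
  rw [nonempty_range_iff]
  omega

/-- all nonzero Fourier coefficients are small -/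
theorem hat_small {q : ℕ} (hq : q.Prime) {p : ℕ} (hp2 : 2 ≤ p) (hp : ¬ q ∣ p) : ∃ s : ℕ, ∀ A' : ℝ,
    ∃ η : ℝ, 0 < η ∧ ∃ M0 : ℕ, ∀ M : ℕ, M0 ≤ M → ∀ P ∈ SL p q s A' M, ∀ L : ℤ, L ≠ 0 →
      ‖hat P L‖ ≤ (M : ℝ) ^ (-η) := by
  obtain ⟨s, hs⟩ := expsum_all hq hp2 hp
  refine ⟨s, fun A' => ?_⟩
  obtain ⟨η, hη, M0, h⟩ := hs (|A'| + 1)
  have hev : ∀ᶠ M : ℕ in atTop, (s : ℝ) ≤ log M := by
    have h1 : Tendsto (fun M : ℕ => log (M : ℝ)) atTop atTop := Real.tendsto_log_atTop.comp tendsto_natCast_atTop_atTop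
    exact h1.eventually_ge_atTop _
  obtain ⟨M1, hM1⟩ := eventually_atTop.1 hev
  refine ⟨η, hη, max (max M0 M1) 1, fun M hM P hP L hL => ?_⟩
  have hMM0 : M0 ≤ M := (le_max_left _ _).trans ((le_max_left _ _).trans hM)
  have hMM1 : M1 ≤ M := (le_max_right _ _).trans ((le_max_left _ _).trans hM)
  have hMo : 1 ≤ M := (le_max_right _ _).trans hM
  have hMR : (1 : ℝ) ≤ M := by exact_mod_cast hMo
  have hMp : (0 : ℝ) < M := by linarith
  have hlogM : 0 ≤ log (M : ℝ) := Real.log_nonneg hMR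
  have hsM := hM1 M hMM1
  obtain ⟨l, J, hl, hJ, rfl⟩ := hP
  have hq0 : (0 : ℝ) < q := by exact_mod_cast hq.pos
  have hqp : Prime (q : ℤ) := Nat.prime_iff_prime_int.1 hq
  by_cases hd : (q : ℤ) ^ J ∣ L
  · rw [hat_smr_zero _ hq.one_lt.le hL hd, norm_zero]
    positivity
  obtain ⟨v, A0, hA0, hLv⟩ : ∃ (v : ℕ) (A0 : ℤ), ¬ (q : ℤ) ∣ A0 ∧ L = (q : ℤ) ^ v * A0 := by
    have hfin : FiniteMultiplicity (q : ℤ) L := Int.finiteMultiplicity_iff.2 ⟨by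
      rw [Int.natAbs_natCast]; exact hq.ne_one, hL⟩
    obtain ⟨c, hc1, hc2⟩ := hfin.exists_eq_pow_mul_and_not_dvd
    exact ⟨_, c, hc2, hc1⟩
  have hvJ : v < J := by
    by_contra hcon
    push Not at hcon
    apply hd
    rw [hLv]
    exact (pow_dvd_pow _ hcon).mul_right _
  refine (hat_smr_le _ _ _ _).trans ?_
  have h1 : ∑ m ∈ range M, e ((L : ℝ) / (q : ℝ) ^ J * ((l : ℝ) * (p : ℝ) ^ m / (q : ℝ) ^ s)) =
      ∑ m ∈ range M, ee (((A0 * l : ℤ) : ℝ) * (p : ℝ) ^ m / (q : ℝ) ^ (s + (J - v))) := by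
    apply sum_congr rfl
    intro m _
    rw [e_eq_ee]
    congr 1
    rw [hLv]
    obtain ⟨j, rfl⟩ : ∃ j, J = v + j := ⟨J - v, by omega⟩
    have e1 : v + j - v = j := by omega
    rw [e1]
    push_cast
    rw [pow_add, pow_add]
    field_simp
  rw [h1, card_range]
  have h2 := h M hMM0 (s + (J - v)) (by omega) (by
    have h3 : ((J - v : ℕ) : ℝ) ≤ J := by exact_mod_cast Nat.sub_le _ _
    push_cast
    have h4 : A' * log M ≤ |A'| * log M := mul_le_mul_of_nonneg_right (le_abs_self _) hlogM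
    linarith) (A0 * l) (by
    intro h
    rcases hqp.dvd_or_dvd h with h | h
    · exact hA0 h
    · exact hl (by exact_mod_cast h))
  calc 1 / (M : ℝ) * ‖∑ m ∈ range M, ee (((A0 * l : ℤ) : ℝ) * (p : ℝ) ^ m / (q : ℝ) ^ (s + (J - v)))‖
      ≤ 1 / (M : ℝ) * ((M : ℝ) ^ (-η) * M) := by gcongr
    _ = (M : ℝ) ^ (-η) := by field_simp

/-- the tests -/
theorem tw_low {q : ℕ} (hq : q.Prime) {p : ℕ} (hp2 : 2 ≤ p) (hp : ¬ q ∣ p) : ∃ s : ℕ, ∀ (A' : ℝ) (k : ℕ) (A : ℝ),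
    TW q k A (SL p q s A') := by
  obtain ⟨s, hs⟩ := hat_small hq hp2 hp
  refine ⟨s, fun A' k A => ?_⟩
  obtain ⟨η, hη, M0, h⟩ := hs A'
  refine TW.of_goodQ hq.one_lt.le (SL_prob p q s A') ⟨η, hη, M0, ?_⟩
  intro M hM P hP n hh _ _ hne
  exact h M hM P hP _ hne

end Pool.Agent.K4H18.DG
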