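import Pool.Agent.K4H18.DG.A3

/-!
# The digits of powers with random exponents: the central limit theorem
-/

set_option autoImplicit false

namespace Pool.Agent.K4H18.DG

open Finset Real MeasureTheory Filter Topology ProbabilityTheory
open Pool.Agent.Y933.KD Pool.Agent.Y933.KE

/-- `∑_{i < L} F(the word of `w` digits at the places ≥ i₀ + i)` -/
def wsum (q w : ℕ) (F : ℕ → ℝ) (i₀ L X : ℕ) : ℝ := ∑ i ∈ range L, F (X / q ^ (i₀ + i) % q ^ w)

lemma succ_div_eq {q T j Y : ℕ} (hT : ¬ q ^ T ∣ Y + 1) (hj : T ≤ j) : (Y + 1) / q ^ j = Y / q ^ j := by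
  rw [Nat.succ_div, if_neg, Nat.add_zero]
  intro h
  exact hT ((pow_dvd_pow q hj).trans h)

lemma wsum_succ {q w T : ℕ} (hq : 1 ≤ q) {F : ℕ → ℝ} {K : ℝ} (hF : ∀ c < q ^ w, |F c| ≤ K) (i₀ L Y : ℕ)
    (hT : ¬ q ^ T ∣ Y + 1) : |wsum q w F i₀ L (Y + 1) - wsum q w F i₀ L Y| ≤ 2 * K * T := by
  have hq0 : 0 < q ^ w := pow_pos (by omega) _
  have hK : 0 ≤ K := (abs_nonneg _).trans (hF 0 hq0)
  unfold wsum
  rw [← sum_sub_distrib]
  refine (abs_sum_le_sum_abs _ _).trans ?_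
  calc ∑ i ∈ range L, |F ((Y + 1) / q ^ (i₀ + i) % q ^ w) - F (Y / q ^ (i₀ + i) % q ^ w)|
      ≤ ∑ i ∈ range L, (if i < T then 2 * K else 0) := by
        apply sum_le_sum
        intro i _
        split_ifs with h
        · have h1 := hF _ (Nat.mod_lt ((Y + 1) / q ^ (i₀ + i)) hq0)
          have h2 := hF _ (Nat.mod_lt (Y / q ^ (i₀ + i)) hq0)
          rw [abs_le] at h1 h2 ⊢
          constructor <;> linarith [h1.1, h1.2, h2.1, h2.2]
        · rw [succ_div_eq hT (by omega), sub_self, abs_zero]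
    _ = ∑ i ∈ (range L).filter (fun i => i < T), 2 * K := by rw [sum_filter]
    _ ≤ 2 * K * T := by
        rw [sum_const, nsmul_eq_mul, mul_comm]
        have h1 : ((range L).filter (fun i => i < T)).card ≤ T := by
          calc ((range L).filter (fun i => i < T)).card ≤ (range T).card := by
                apply card_le_card
                intro i hi
                rw [mem_filter] at hi
                exact mem_range.2 hi.2
            _ = T := card_range _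
        have h2 : (((range L).filter (fun i => i < T)).card : ℝ) ≤ T := by exact_mod_cast h1
        exact mul_le_mul_of_nonneg_left h2 (by positivity)

lemma sum_shift {f : ℕ → ℝ} {K : ℝ} (hf : ∀ i, |f i| ≤ K) (L s : ℕ) :
    |∑ i ∈ range L, f (s + i) - ∑ i ∈ range L, f i| ≤ 2 * K * s := by
  induction s with
  | zero => simp
  | succ s ih =>
    have h1 : ∑ i ∈ range L, f (s + 1 + i) - ∑ i ∈ range L, f (s + i) = f (s + L) - f s := by
      have e1 := sum_range_succ (fun i => f (s + i)) L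
      have e2 := sum_range_succ' (fun i => f (s + i)) L
      have e3 : ∑ i ∈ range L, f (s + 1 + i) = ∑ i ∈ range L, f (s + (i + 1)) := by
        apply sum_congr rfl
        intro i _
        congr 1
        ring
      rw [e3]
      simp only [add_zero] at e2
      linarith
    have h2 := hf (s + L)
    have h3 := hf s
    have h4 : ∑ i ∈ range L, f (s + 1 + i) - ∑ i ∈ range L, f i =
      (∑ i ∈ range L, f (s + i) - ∑ i ∈ range L, f i) + (f (s + L) - f s) := by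
      rw [← h1]; ring
    rw [h4]
    push_cast
    rw [abs_le] at *
    constructor <;> linarith [h2.1, h2.2, h3.1, h3.2, ih.1, ih.2]

/-- the words of the point `(X / q ^ s + θ) / q ^ J` -/
lemma point_sum {q w : ℕ} (hq : 1 ≤ q) {F : ℕ → ℝ} {K : ℝ} (hF : ∀ c < q ^ w, |F c| ≤ K)
    {s i₀ L J T : ℕ} (hJ : i₀ + L + w = J + 1) (hTJ : T ≤ J) (X : ℕ) {θ : ℝ} (hθ : θ ∈ Set.Ico (0 : ℝ) 1)
    (hB : wd q T (J - T) (((X : ℝ) / (q : ℝ) ^ s + θ) / (q : ℝ) ^ J) ≠ 0) :
    |∑ i ∈ range L, F (wd q w (0 + i) (((X : ℝ) / (q : ℝ) ^ s + θ) / (q : ℝ) ^ J)) - wsum q w F i₀ L X| ≤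
      2 * K * (T + s) := by
  have hq0 : (0 : ℝ) < q := by exact_mod_cast hq
  have hqs : (0 : ℝ) < (q : ℝ) ^ s := by positivity
  have hqw : 0 < q ^ w := pow_pos (by omega) _
  have hK : 0 ≤ K := (abs_nonneg _).trans (hF 0 hqw)
  set Y : ℕ := X / q ^ s with hY
  set ρ : ℝ := ((X % q ^ s : ℕ) : ℝ) / (q : ℝ) ^ s with hρ
  have hρ0 : 0 ≤ ρ := by positivity
  have hρ1 : ρ < 1 := by
    rw [hρ, div_lt_one hqs]
    exact_mod_cast Nat.mod_lt X (pow_pos (by omega : 0 < q) s)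
  have hx : (X : ℝ) / (q : ℝ) ^ s = Y + ρ := by
    have h1 : (X : ℝ) = (q : ℝ) ^ s * Y + ((X % q ^ s : ℕ) : ℝ) := by
      exact_mod_cast (Nat.div_add_mod X (q ^ s)).symm
    rw [hρ]
    field_simp
    exact h1
  -- the shift
  have hsh : |wsum q w F i₀ L Y - wsum q w F i₀ L X| ≤ 2 * K * s := by
    have h1 := sum_shift (f := fun i => F (X / q ^ (i₀ + i) % q ^ w)) (K := K)
      (fun i => hF _ (Nat.mod_lt _ hqw)) L s
    have h2 : wsum q w F i₀ L Y = ∑ i ∈ range L, F (X / q ^ (i₀ + (s + i)) % q ^ w) := by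
      unfold wsum
      apply sum_congr rfl
      intro i _
      congr 2
      rw [hY, Nat.div_div_eq_div_mul, ← pow_add]
      congr 2
      ring
    rw [h2]
    exact h1
  obtain ⟨Z, θ', hθ', hZ, hZθ⟩ : ∃ (Z : ℕ) (θ' : ℝ), θ' ∈ Set.Ico (0 : ℝ) 1 ∧ (Z = Y ∨ Z = Y + 1) ∧
      (X : ℝ) / (q : ℝ) ^ s + θ = Z + θ' := by
    rcases lt_or_ge (ρ + θ) 1 with h | h
    · exact ⟨Y, ρ + θ, ⟨add_nonneg hρ0 hθ.1, h⟩, Or.inl rfl, by rw [hx]; ring⟩
    · refine ⟨Y + 1, ρ + θ - 1, ⟨by linarith, by linarith [hθ.2]⟩, Or.inr rfl, ?_⟩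
      rw [hx]
      push_cast
      ring
  rw [hZθ] at hB ⊢
  rw [wd_smear hq (by omega) Z hθ'] at hB
  have e1 : J - (J - T + T) = 0 := by omega
  rw [e1, pow_zero, Nat.div_one] at hB
  have h3 := sum_places hq F (s := i₀) (s' := 0) (L := L) (w := w) (J := J) (by omega) Z hθ'
  rw [h3]
  have h4 : |wsum q w F i₀ L Z - wsum q w F i₀ L Y| ≤ 2 * K * T := by
    rcases hZ with rfl | rfl
    · rw [sub_self, abs_zero]; positivity
    · refine wsum_succ hq hF i₀ L Y ?_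
      intro h
      exact hB (Nat.mod_eq_zero_of_dvd h)
  change |wsum q w F i₀ L Z - wsum q w F i₀ L X| ≤ _
  have h5 : wsum q w F i₀ L Z - wsum q w F i₀ L X = (wsum q w F i₀ L Z - wsum q w F i₀ L Y) +
      (wsum q w F i₀ L Y - wsum q w F i₀ L X) := by ring
  rw [h5]
  refine (abs_add_le _ _).trans ?_
  linarith

/-- a word of zeros is rare -/
lemma Leb_zero {q : ℕ} (hq : 1 ≤ q) (T n : ℕ) : Leb.real {x | wd q T n x = 0} = 1 / (q : ℝ) ^ T := by
  have h1 := int_word hq T n (fun c => if c = 0 then (1 : ℝ) else 0)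
  have hm : MeasurableSet {x | wd q T n x = 0} := measurableSet_eq_fun (measurable_wd _ _ _) measurable_const
  have h2 : ∫ x, (fun c => if c = 0 then (1 : ℝ) else 0) (wd q T n x) ∂Leb = Leb.real {x | wd q T n x = 0} := by
    rw [← integral_indicator_one hm]
    congr 1
    funext x
    simp [Set.indicator_apply]
  rw [← h2, h1]
  congr 1
  rw [sum_ite_eq', if_pos]
  rw [mem_range]
  exact pow_pos (by omega) _

lemma WE_one (q T n : ℕ) : WE q (fun _ : Fin 1 => n) (fun _ => T) (fun _ => 0) = {x | wd q T n x = 0} := by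
  ext x
  unfold WE
  simp

/-- the exceptional event -/
lemma zero_rare {q : ℕ} (hq : 1 ≤ q) {A : ℝ} {S : ℕ → Set (Measure ℝ)} (hT : TW q 1 A S) :
    ∃ δ : ℝ, 0 < δ ∧ ∃ C : ℝ, ∀ M : ℕ, 1 ≤ M → ∀ P ∈ S M, ∀ T n : ℕ, (n : ℝ) + T ≤ A * log M →
      P.real {x | wd q T n x = 0} ≤ 1 / (q : ℝ) ^ T + C * (M : ℝ) ^ (-δ) := by
  obtain ⟨δ, hδ, C, h⟩ := hT
  refine ⟨δ, hδ, C, fun M hM P hP T n hn => ?_⟩
  have h1 := h M hM P hP (fun _ => n) (fun _ => T) (fun _ => 0) (fun _ => hn)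
  rw [WE_one, Leb_zero hq] at h1
  have := le_abs_self (P.real {x | wd q T n x = 0} - 1 / (q : ℝ) ^ T)
  linarith

end Pool.Agent.K4H18.DG
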