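import Pool.Agent.K4H18.DG.A4
import Pool.Agent.K4H18.EK.A21

/-!
# The digits of powers with random exponents: the central limit theorem
-/

set_option autoImplicit false

namespace Pool.Agent.K4H18.DG

open Finset Real MeasureTheory Filter Topology ProbabilityTheory
open Pool.Agent.Y933.KD Pool.Agent.Y933.KE

lemma Phi_lip {a b : ℝ} (h : a ≤ b) :
    (gaussianReal 0 1).real (Set.Iic b) - (gaussianReal 0 1).real (Set.Iic a) ≤ b - a := by
  have h1 := Pool.Agent.K4H18.EK.Ph_lip h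
  unfold Pool.Agent.K4H18.EK.Ph at h1
  rw [cdf_eq_real, cdf_eq_real] at h1
  exact h1

/-- the laws -/
noncomputable def PL (p q s w : ℕ) (l i₀ L : ℕ → ℕ) (M : ℕ) : Measure ℝ :=
  if 1 ≤ M then smr (range M) (fun n => (l M : ℝ) * (p : ℝ) ^ n / (q : ℝ) ^ s) q (i₀ M + L M + w - 1) else Leb

instance (p q s w : ℕ) (l i₀ L : ℕ → ℕ) (M : ℕ) : IsProbabilityMeasure (PL p q s w l i₀ L M) := by
  unfold PL
  split_ifs with h
  · refine smr_prob ?_ _ _ _
    rw [nonempty_range_iff]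
    omega
  · infer_instance

/-- **the central limit theorem for the lowest digits of powers with random exponents** -/
theorem clt_low {q : ℕ} (hq : q.Prime) {p : ℕ} (hp2 : 2 ≤ p) (hp : ¬ q ∣ p) {w : ℕ} (hw : 1 ≤ w) (F : ℕ → ℝ)
    (hσ : 0 < cv q w F 0 + 2 * ∑ h ∈ Finset.Ico 1 w, cv q w F h) (C : ℝ) (l i₀ L : ℕ → ℕ)
    (hl : ∀ M, ¬ q ∣ l M) (hL : Tendsto L atTop atTop)
    (hC : ∀ᶠ M : ℕ in atTop, ((i₀ M + L M : ℕ) : ℝ) ≤ C * log M) (a : ℝ) :
    Tendsto (fun M : ℕ => (((range M).filter (fun n =>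
      wsum q w F (i₀ M) (L M) (l M * p ^ n) - L M * mn q w F ≤
        a * √((cv q w F 0 + 2 * ∑ h ∈ Finset.Ico 1 w, cv q w F h) * L M))).card : ℝ) / M) atTop
      (𝓝 ((gaussianReal 0 1).real (Set.Iic a))) := by
  classical
  have hq1 : 1 ≤ q := hq.one_lt.le
  have hqR : (1 : ℝ) < q := by exact_mod_cast hq.one_lt
  have hqw : 0 < q ^ w := pow_pos (by omega) _
  set v : ℝ := cv q w F 0 + 2 * ∑ h ∈ Finset.Ico 1 w, cv q w F h with hv
  set K : ℝ := ∑ c ∈ range (q ^ w), |F c| with hK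
  have hF : ∀ c < q ^ w, |F c| ≤ K := fun c hc =>
    single_le_sum (f := fun c => |F c|) (fun _ _ => abs_nonneg _) (mem_range.2 hc)
  have hK0 : 0 ≤ K := (abs_nonneg _).trans (hF 0 hqw)
  obtain ⟨s, hs⟩ := tw_low hq hp2 hp
  set A : ℝ := |C| + w with hA
  have hlog : Tendsto (fun M : ℕ => log (M : ℝ)) atTop atTop := Real.tendsto_log_atTop.comp tendsto_natCast_atTop_atTop
  have hJA : ∀ᶠ M : ℕ in atTop, ((i₀ M + L M + w - 1 : ℕ) : ℝ) ≤ A * log M := by
    filter_upwards [hC, hlog.eventually_ge_atTop 1] with M h1 h2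
    have h3 : ((i₀ M + L M + w - 1 : ℕ) : ℝ) ≤ ((i₀ M + L M : ℕ) : ℝ) + w := by
      exact_mod_cast (by omega : i₀ M + L M + w - 1 ≤ (i₀ M + L M) + w)
    have h4 : C * log M ≤ |C| * log M := mul_le_mul_of_nonneg_right (le_abs_self _) (by linarith)
    have h5 : (w : ℝ) ≤ w * log M := le_mul_of_one_le_right (Nat.cast_nonneg _) h2
    rw [hA, add_mul]
    linarith
  have hPS : ∀ᶠ M : ℕ in atTop, PL p q s w l i₀ L M ∈ SL p q s A M := by
    filter_upwards [hJA, eventually_ge_atTop 1] with M h1 h2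
    unfold PL
    rw [if_pos h2]
    exact ⟨l M, _, hl M, h1, rfl⟩
  have hclt : ∀ b : ℝ, Tendsto (fun M => (PL p q s w l i₀ L M).real {x | WS q w (cen q w F) 0 (L M) x ≤
      b * √(v * L M)}) atTop (𝓝 ((gaussianReal 0 1).real (Set.Iic b))) := by
    intro b
    have h1 := clt_TW (G := cen q w F) hq1 hw (cen_le q w F) (cen_sum hq1 F)
      (by rw [sigma2_cen hq1]; exact hσ) (SL_prob p q s A) (fun k => hs A k (A + 1)) (PL p q s w l i₀ L) hPS
      (fun _ => 0) L hL (by
        filter_upwards [hJA] with M hM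
        refine le_trans ?_ hM
        exact_mod_cast (by omega : 0 + L M ≤ i₀ M + L M + w - 1)) b
    rw [sigma2_cen hq1] at h1
    exact h1
  obtain ⟨δ, hδ, C', hC'⟩ := zero_rare hq1 (hs A 1 A)
  rw [Metric.tendsto_nhds]
  intro ε hε
  -- the parameters
  obtain ⟨T, hT⟩ : ∃ T : ℕ, 1 / (q : ℝ) ^ T < ε / 4 := by
    obtain ⟨T, hT⟩ := exists_pow_lt_of_lt_one (show 0 < ε / 4 by positivity) (show (1 / (q : ℝ)) < 1 by
      rw [div_lt_one (by linarith)]; exact hqR)
    exact ⟨T, by rw [one_div_pow] at hT; exact hT⟩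
  set η : ℝ := ε / 8 with hη
  have hη0 : 0 < η := by positivity
  have hpow : Tendsto (fun M : ℕ => C' * (M : ℝ) ^ (-δ)) atTop (𝓝 (C' * 0)) := by
    have h1 : Tendsto (fun M : ℕ => (M : ℝ) ^ (-δ)) atTop (𝓝 0) :=
      (tendsto_rpow_neg_atTop hδ).comp tendsto_natCast_atTop_atTop
    exact h1.const_mul _
  rw [mul_zero] at hpow
  have hR : ∀ᶠ M : ℕ in atTop, 2 * K * (T + s) ≤ η * √(v * L M) := by
    have h1 : Tendsto (fun M : ℕ => η * √(v * L M)) atTop atTop := by
      have h2 : Tendsto (fun M : ℕ => (L M : ℝ)) atTop atTop := tendsto_natCast_atTop_atTop.comp hL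
      have h3 : Tendsto (fun M : ℕ => √(v * L M)) atTop atTop :=
        Real.tendsto_sqrt_atTop.comp (h2.const_mul_atTop hσ)
      exact h3.const_mul_atTop hη0
    exact h1.eventually_ge_atTop _
  have e1 := (Metric.tendsto_nhds.1 (hclt (a + η))) η hη0
  have e2 := (Metric.tendsto_nhds.1 (hclt (a - η))) η hη0
  have e3 := (Metric.tendsto_nhds.1 hpow) η hη0
  filter_upwards [e1, e2, e3, hR, hJA, hPS, hL.eventually_ge_atTop (T + 1), eventually_ge_atTop 1] with
    M h1 h2 h3 h4 h5 h6 h7 hM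
  rw [Real.dist_eq, abs_lt] at h1 h2 h3 ⊢
  set J := i₀ M + L M + w - 1 with hJ
  have hTJ : T ≤ J := by omega
  have hPL : PL p q s w l i₀ L M = smr (range M) (fun n => (l M : ℝ) * (p : ℝ) ^ n / (q : ℝ) ^ s) q J := by
    unfold PL
    rw [if_pos hM]
  have hMR : (0 : ℝ) < M := by exact_mod_cast hM
  -- the exceptional event
  set B : Set ℝ := {x | wd q T (J - T) x = 0} with hB
  have hBm : MeasurableSet B := measurableSet_eq_fun (measurable_wd _ _ _) measurable_const
  have hPB : (PL p q s w l i₀ L M).real B ≤ 1 / (q : ℝ) ^ T + C' * (M : ℝ) ^ (-δ) := by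
    refine hC' M hM _ h6 T (J - T) ?_
    have : ((J - T : ℕ) : ℝ) + T = J := by
      exact_mod_cast (by omega : J - T + T = J)
    rw [this]
    exact h5
  -- points
  have hpt : ∀ n : ℕ, ∀ θ ∈ Set.Ico (0 : ℝ) 1, ((l M : ℝ) * (p : ℝ) ^ n / (q : ℝ) ^ s + θ) / (q : ℝ) ^ J ∉ B →
      |WS q w (cen q w F) 0 (L M) (((l M : ℝ) * (p : ℝ) ^ n / (q : ℝ) ^ s + θ) / (q : ℝ) ^ J) -
        (wsum q w F (i₀ M) (L M) (l M * p ^ n) - L M * mn q w F)| ≤ η * √(v * L M) := by
    intro n θ hθ hz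
    have hX : (l M : ℝ) * (p : ℝ) ^ n = ((l M * p ^ n : ℕ) : ℝ) := by push_cast; ring
    rw [hX] at hz ⊢
    have h8 := point_sum hq1 hF (J := J) (L := L M) (i₀ := i₀ M) (s := s) (T := T) (by omega) hTJ (l M * p ^ n) hθ hz
    rw [WS_cen hq1]
    have e9 : ∀ x y z : ℝ, x - z - (y - z) = x - y := fun x y z => by ring
    rw [e9]
    exact h8.trans h4
  have hWm : ∀ b : ℝ, MeasurableSet {x | WS q w (cen q w F) 0 (L M) x ≤ b * √(v * L M)} := fun b =>
    measurableSet_le (measurable_WS _ _ _ _ _) measurable_const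
  -- the upper bound
  have hup : (((range M).filter (fun n => wsum q w F (i₀ M) (L M) (l M * p ^ n) - L M * mn q w F ≤
      a * √(v * L M))).card : ℝ) / M ≤
      (PL p q s w l i₀ L M).real {x | WS q w (cen q w F) 0 (L M) x ≤ (a + η) * √(v * L M)} +
      (PL p q s w l i₀ L M).real B := by
    refine le_trans ?_ (measureReal_union_le _ _)
    rw [hPL]
    have h8 := real_smr_ge (s := range M) (fun n => (l M : ℝ) * (p : ℝ) ^ n / (q : ℝ) ^ s) q J
      (E := {x | WS q w (cen q w F) 0 (L M) x ≤ (a + η) * √(v * L M)} ∪ B) ((hWm _).union hBm)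
      (fun n => wsum q w F (i₀ M) (L M) (l M * p ^ n) - L M * mn q w F ≤ a * √(v * L M)) ?_
    · rw [card_range] at h8
      exact h8
    · intro n _ hn θ hθ
      by_cases hz : ((l M : ℝ) * (p : ℝ) ^ n / (q : ℝ) ^ s + θ) / (q : ℝ) ^ J ∈ B
      · exact Or.inr hz
      · left
        have h9 := hpt n θ hθ hz
        rw [abs_le] at h9
        simp only [Set.mem_ofPred_eq]
        rw [add_mul]
        linarith [h9.1, h9.2]
  -- the lower bound
  have hlo : (((range M).filter (fun n => ¬ wsum q w F (i₀ M) (L M) (l M * p ^ n) - L M * mn q w F ≤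
      a * √(v * L M))).card : ℝ) / M ≤
      (1 - (PL p q s w l i₀ L M).real {x | WS q w (cen q w F) 0 (L M) x ≤ (a - η) * √(v * L M)}) +
      (PL p q s w l i₀ L M).real B := by
    rw [← probReal_compl_eq_one_sub (hWm _)]
    refine le_trans ?_ (measureReal_union_le _ _)
    rw [hPL]
    have h8 := real_smr_ge (s := range M) (fun n => (l M : ℝ) * (p : ℝ) ^ n / (q : ℝ) ^ s) q J
      (E := {x | WS q w (cen q w F) 0 (L M) x ≤ (a - η) * √(v * L M)}ᶜ ∪ B) ((hWm _).compl.union hBm)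
      (fun n => ¬ wsum q w F (i₀ M) (L M) (l M * p ^ n) - L M * mn q w F ≤ a * √(v * L M)) ?_
    · rw [card_range] at h8
      exact h8
    · intro n _ hn θ hθ
      by_cases hz : ((l M : ℝ) * (p : ℝ) ^ n / (q : ℝ) ^ s + θ) / (q : ℝ) ^ J ∈ B
      · exact Or.inr hz
      · left
        have h9 := hpt n θ hθ hz
        rw [abs_le] at h9
        simp only [Set.mem_compl_iff, Set.mem_ofPred_eq, not_le] at hn ⊢
        rw [sub_mul]
        linarith [h9.1, h9.2]
  have hsum : (((range M).filter (fun n => wsum q w F (i₀ M) (L M) (l M * p ^ n) - L M * mn q w F ≤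
      a * √(v * L M))).card : ℝ) / M + (((range M).filter (fun n => ¬ wsum q w F (i₀ M) (L M) (l M * p ^ n) -
        L M * mn q w F ≤ a * √(v * L M))).card : ℝ) / M = 1 := by
    rw [← add_div, div_eq_one_iff_eq hMR.ne']
    have h8 := card_filter_add_card_filter_not (s := range M) (fun n => wsum q w F (i₀ M) (L M) (l M * p ^ n) -
      L M * mn q w F ≤ a * √(v * L M))
    rw [card_range] at h8
    exact_mod_cast h8
  have l1 := Phi_lip (show a ≤ a + η by linarith)
  have l2 := Phi_lip (show a - η ≤ a by linarith)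
  constructor <;> linarith [h1.1, h1.2, h2.1, h2.2, h3.1, h3.2]

end Pool.Agent.K4H18.DG
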